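import Pool.Agent.H68.SC.Fin

/-!
# MP_f4af34_an: Schiffer's problem in a spectral window

`jl l` is the spherical Bessel function `j_l`. If `D` (as in the setting of the problem, with a
solution `u` of the overdetermined problem) lies between two concentric balls of radii `r` and `R`
(`r ≤ 0`: no inner ball) and in `[k r, k R] ∩ (0, ∞)` no `j_l` with `l ≥ 2` has a zero and `j_0`, `j_1`
have at most one zero each, then `D` is a ball; in particular if `k R ≤ 5.76`. For `D` centrally
symmetric about `x₀` (`s = -1`) only even `l` count.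
-/

set_option autoImplicit false

namespace Pool.Agent.Results.MP_f4af34_an.BallWindow

open Pool.Agent.H68.SC

theorem result :
    ∀ (D : Set (EuclideanSpace ℝ (Fin 3))) (φ : EuclideanSpace ℝ (Fin 3) → ℝ), IsDomain D φ →
      ∀ (k c : ℝ) (u : EuclideanSpace ℝ (Fin 3) → ℝ), 0 < k → c ≠ 0 → IsSolution D k c u →
        ∀ (x₀ : EuclideanSpace ℝ (Fin 3)) (r R s : ℝ),
          Metric.ball x₀ r ⊆ D → D ⊆ Metric.ball x₀ R →
          (s = 1 ∨ s = -1 ∧ ∀ x ∈ D, (2 : ℝ) • x₀ - x ∈ D) →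
          (k * R ≤ 5.76 ∨ (∀ l : ℕ, 2 ≤ l → s ^ l = 1 → NoZero l k r R) ∧
            ∀ l : ℕ, l < 2 → s ^ l = 1 → OneZero l k r R) →
          ∃ (z : EuclideanSpace ℝ (Fin 3)) (ρ : ℝ), D = Metric.ball z ρ := by
  intro D φ h1 k c u h2 h3 h4 x₀ r R s h5 h6 h7 h8
  exact window (toSol h1 h2 h3 h4) h5 h6 h7 h8

end Pool.Agent.Results.MP_f4af34_an.BallWindow
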