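import Pool.Agent.H68.SN.Main

/-!
# MP_f4af34_an: Schiffer's problem and the number of Neumann eigenvalues

If `D` (as in the setting of the problem, with a solution `u` of the overdetermined problem) is not a
ball and at least `m` Dirichlet eigenvalues of `D` are smaller than `k²`, then at least
`max m 2 + 8` Neumann eigenvalues of `D` are smaller than `k²`. In particular (`m = 0`): if
`k² ≤ μ_10(D)`, the tenth Neumann eigenvalue of `D`, then `D` is a ball.
-/

set_option autoImplicit false

namespace Pool.Agent.Results.MP_f4af34_an.NeumannTen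

open Pool.Agent.H68.SC Pool.Agent.H68.SN

theorem result :
    ∀ (D : Set (EuclideanSpace ℝ (Fin 3))) (φ : EuclideanSpace ℝ (Fin 3) → ℝ), IsDomain D φ →
      ∀ (k c : ℝ) (u : EuclideanSpace ℝ (Fin 3) → ℝ), 0 < k → c ≠ 0 → IsSolution D k c u →
        ∀ m : ℕ, DirichletBelow D (k ^ 2) m → ¬NeumannBelow D (k ^ 2) (max m 2 + 8) →
          ∃ (z : EuclideanSpace ℝ (Fin 3)) (ρ : ℝ), D = Metric.ball z ρ := by
  intro D φ h1 k c u h2 h3 h4 m h5 h6
  by_contra hball
  exact h6 (neumann_count (toSol h1 h2 h3 h4) hball (atLeast_of h5))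

end Pool.Agent.Results.MP_f4af34_an.NeumannTen
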