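import Pool.Agent.H97.NB.Main
import Pool.Agent.H97.NB.Pub

/-!
# MP_f4af34_an: a domain in three-space, not a ball, with a solution of the overdetermined problem

Schiffer's conjecture and the conjecture on the Pompeiu problem are false in three dimensions: there
are a bounded domain `D` which is not a ball, the closure of which is diffeomorphic to the closed ball,
with real analytic boundary, and a solution `u` of the overdetermined problem in `D` (`k = 1`, `c = 1`);
`D` does not have the Pompeiu property. The notions are defined in `Pool/Agent/H97/NB/Pub.lean`.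
-/

set_option autoImplicit false

namespace Pool.Agent.Results.MP_f4af34_an.NotBall

open Pool.Agent.H97.NB

theorem result :
    ∃ (D : Set R3) (F : R3 ≃ₜ R3) (R : ℝ → ℝ) (u : R3 → ℝ),
      (¬ ∃ (z : R3) (ρ : ℝ), D = Metric.ball z ρ) ∧ IsDiffeo F ∧ MapsBall F D ∧ HasProfile D R ∧
        Solves D u ∧ WaveNull D := by
  obtain ⟨D, u, F, R, r, h1, ⟨h2, h3, h4, h5⟩, ⟨h6, h7, h8, h9, h10⟩, ⟨h11, h12, h13, h14⟩, h15⟩ :=
    notBall
  exact ⟨D, F, R, u, h1, h2, ⟨h3, h4, h5⟩, ⟨⟨r, h6, h7⟩, h8, h9, h10⟩, ⟨h11, h12, h13, h14⟩, h15⟩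

end Pool.Agent.Results.MP_f4af34_an.NotBall
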