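import Pool.Agent.H56.PG.Pub

/-!
# The least volume in the Schiffer problem in three-space and the gap above it

`τ = 4.4934…` is the solution of `tan τ = τ` in `(π, 3π/2)`. Every bounded `C¹` domain `D` which has a solution of the
overdetermined problem with the constant `k` satisfies `|D| ≥ (4π/3) (τ/k)³`, with equality only for a ball of radius
`τ/k`, and there is `ε > 0` such that every domain of `S06715` with a solution and `|D| ≤ (1 + ε) (4π/3) (τ/k)³` is a
ball. The definitions are in `Pool/Agent/H56/PO/Pub.lean` and `Pool/Agent/H56/PG/Pub.lean`.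
-/

set_option autoImplicit false

open Filter Topology MeasureTheory Pool.H56.PO

namespace Pool.Agent.Results.MP_f4af34_an.VolumeGap

theorem result : ∃ τ ε : ℝ, FirstZero τ ∧ 0 < ε ∧
    (∀ (D : Set (EuclideanSpace ℝ (Fin 3))) (k : ℝ), C1Domain D → Schiffer D k →
      vb (τ / k) ≤ volume.real D ∧
        (volume.real D = vb (τ / k) →
          ∃ z : EuclideanSpace ℝ (Fin 3), D = Metric.ball z (τ / k))) ∧
    ∀ (D : Set (EuclideanSpace ℝ (Fin 3))) (k : ℝ), C2Domain D → Schiffer D k →
      volume.real D ≤ (1 + ε) * vb (τ / k) →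
      ∃ (z : EuclideanSpace ℝ (Fin 3)) (r : ℝ), D = Metric.ball z r :=
  pub_gap

end Pool.Agent.Results.MP_f4af34_an.VolumeGap
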